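import Pool.Agent.MP_b9fb92_an.H82.Base

/-! For every `d ≥ 3` some minimal `d`-IET has a non-trivial continuous embedding into a planar
orientation preserving `d`-PWI. -/

open Pool.Agent.MP_b9fb92_an.H82

namespace Pool.Agent.Results.MP_b9fb92_an.FractalEmbedding

theorem result (d : ℕ) (hd : 3 ≤ d) :
    ∃ (π : Equiv.Perm (Fin d)) (μ : Fin d → ℝ) (X : Fin d → Set ℂ) (θ : Fin d → ℝ)
      (lam : Fin d → ℂ) (T : ℂ → ℂ) (h : ℝ → ℂ),
      -- the interval exchange: irreducible, no removable discontinuity, minimal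
      (∀ k : ℕ, 0 < k → k < d → π '' {j | j.val < k} ≠ {j | j.val < k}) ∧
      (∀ i j : Fin d, j.val = i.val + 1 → (π j).val ≠ (π i).val + 1) ∧
      (∀ j, 0 < μ j) ∧
      (∀ x ∈ dom μ, dom μ ⊆ closure (Set.range fun n : ℕ => (iet π μ)^[n] x)) ∧
      -- the piecewise isometry of the whole plane
      (∀ j, Convex ℝ (X j)) ∧
      (∀ i j, i ≠ j → Disjoint (X i) (X j)) ∧
      (⋃ j, X j) = Set.univ ∧
      (∀ j, θ j ∈ Set.Ico 0 (2 * Real.pi)) ∧
      (∀ j, ∀ z ∈ X j, T z = Complex.exp (θ j * Complex.I) * z + lam j) ∧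
      -- the continuous embedding
      Set.InjOn h (dom μ) ∧
      ContinuousOn h (dom μ) ∧
      (∀ j, Topology.IsEmbedding (fun x : atom μ j => h x)) ∧
      (∀ j, Set.MapsTo h (atom μ j) (X j)) ∧
      T '' (h '' dom μ) = h '' dom μ ∧
      (∀ x ∈ dom μ, h (iet π μ x) = T (h x)) ∧
      -- neither linear nor arc
      (¬ ∃ z v : Fin d → ℂ, ∀ j, ∀ x ∈ atom μ j, h x = z j + v j * x) ∧
      (¬ ∃ (z : Fin d → ℂ) (r a b : Fin d → ℝ), (∀ j, 0 < r j) ∧ ∀ j, ∀ x ∈ atom μ j,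
        h x = z j + r j * Complex.exp (Complex.I * (a j * x + b j))) ∧
      -- no sub-arc of the curve lies on a line or on a circle
      (∀ p q : ℝ, p < q → Set.Ioo p q ⊆ dom μ →
        ¬ Collinear ℝ (h '' Set.Ioo p q) ∧ ¬ EuclideanGeometry.Cospherical (h '' Set.Ioo p q)) := by
  obtain ⟨π, μ, h, G⟩ := good_all d hd
  choose u l hu hl using G.iso
  choose θ hθ hθu using fun j => exists_angle (u j) (hu j)
  choose idx hidx using strip_cover (μ := μ) (h := h) (by omega : 0 < d)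
  have hT : ∀ j, ∀ z ∈ strip μ h j, idx z = j := by
    intro j z hz
    by_contra c
    exact Set.disjoint_left.1 (strip_disjoint G c) (hidx z) hz
  have hconj : ∀ x ∈ dom μ, h (iet π μ x) = u (idx (h x)) * h x + l (idx (h x)) := by
    intro x hx
    obtain ⟨j, hj⟩ := exists_atom hx
    rw [hT j _ (mapsTo_strip G j hj), iet_eq G.pos hj, hl j x hj]
  have hnt : ∀ p q : ℝ, p < q → Set.Ioo p q ⊆ dom μ →
      ¬ Collinear ℝ (h '' Set.Ioo p q) ∧ ¬ EuclideanGeometry.Cospherical (h '' Set.Ioo p q) := by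
    intro p q hpq hs
    have h3 : Set.Icc p q ⊆ Set.Icc 0 (∑ k, μ k) := by
      rw [← closure_Ioo hpq.ne]
      exact closure_minimal (hs.trans Set.Ico_subset_Icc_self) isClosed_Icc
    have h4 := G.nt p q hpq (h3 ⟨le_rfl, hpq.le⟩).1 (h3 ⟨hpq.le, le_rfl⟩).2
    exact ⟨fun c => h4 (GC.of_collinear c), fun c => h4 (GC.of_cospherical c)⟩
  let j0 : Fin d := ⟨0, by omega⟩
  have hj0 : Set.Ioo (left μ j0) (left μ j0 + μ j0) ⊆ atom μ j0 := Set.Ioo_subset_Ico_self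
  obtain ⟨n1, n2⟩ := hnt _ _ (by linarith [G.pos j0]) (hj0.trans (atom_subset G.pos j0))
  refine ⟨π, μ, strip μ h, θ, l, fun z => u (idx z) * z + l (idx z), h, ?_, G.gen, G.pos,
    dense_orbit G, strip_convex, fun i j hij => strip_disjoint G hij, ?_, hθ, ?_,
    (injOn_Icc G).mono Set.Ico_subset_Icc_self, G.cont.continuousOn,
    fun j => isEmbedding_restrict G _ ((atom_subset G.pos j).trans Set.Ico_subset_Icc_self),
    mapsTo_strip G, ?_, hconj, ?_, ?_, hnt⟩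
  · intro k k0 k1 e
    obtain ⟨j, j1, j2⟩ := G.irr k k0 k1
    have : π j ∈ {j : Fin d | j.val < k} := e ▸ ⟨j, j1, rfl⟩
    exact absurd this (not_lt.2 j2)
  · exact Set.eq_univ_of_forall fun z => Set.mem_iUnion.2 ⟨idx z, hidx z⟩
  · intro j z hz
    simp only [hT j z hz, hθu]
  · ext w
    constructor
    · rintro ⟨_, ⟨x, hx, rfl⟩, rfl⟩
      exact ⟨_, iet_mem G.pos hx, hconj x hx⟩
    · rintro ⟨y, hy, rfl⟩
      obtain ⟨x, hx, rfl⟩ := iet_surj (π := π) G.pos hy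
      exact ⟨_, ⟨x, hx, rfl⟩, (hconj x hx).symm⟩
  · rintro ⟨z, v, hz⟩
    refine n1 ((collinear_iff_exists_forall_eq_smul_vadd _).2 ⟨z j0, v j0, ?_⟩)
    rintro _ ⟨x, hx, rfl⟩
    exact ⟨x, by rw [hz j0 x (hj0 hx)]; simp; ring⟩
  · rintro ⟨z, r, a, b, hr, hz⟩
    refine n2 ⟨z j0, r j0, ?_⟩
    rintro _ ⟨x, hx, rfl⟩
    have e : Complex.I * (a j0 * x + b j0) = ((a j0 * x + b j0 : ℝ) : ℂ) * Complex.I := by
      push_cast; ring
    rw [hz j0 x (hj0 hx), dist_eq_norm, add_sub_cancel_left, norm_mul, e,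
      Complex.norm_exp_ofReal_mul_I, Complex.norm_real, Real.norm_eq_abs, abs_of_pos (hr j0),
      mul_one]

end Pool.Agent.Results.MP_b9fb92_an.FractalEmbedding
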